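import Pool.Agent.H85.BF.Asm

/-!
# Bull-free graphs are perfect-Pollyanna (MP_e9b9cb_co, Q1)

Every bull-free graph which lies in a hereditary class of finite graphs all of whose triangle-free
members are 3-colourable is perfectly divisible.
-/

set_option autoImplicit false

namespace Pool.Agent.Results.MP_e9b9cb_co.BullFreePollyanna

/-- The bull: the triangle `0 1 2` with the two pendant edges `0 3` and `1 4`. -/
def bull : SimpleGraph (Fin 5) :=
  SimpleGraph.fromEdgeSet {s(0, 1), s(0, 2), s(1, 2), s(0, 3), s(1, 4)}

/-- `G` is perfect: every induced subgraph has chromatic number equal to its clique number. -/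
def IsPerfect {V : Type} (G : SimpleGraph V) : Prop :=
  ∀ S : Set V, (G.induce S).chromaticNumber = ((G.induce S).cliqueNum : ℕ∞)

/-- `G` is perfectly divisible: for every induced subgraph `G[S]` with at least one vertex the set
`S` splits into two parts `A`, `B` such that `G[A]` is perfect and `ω(G[B]) < ω(G[S])`. -/
def PerfectlyDivisible {V : Type} (G : SimpleGraph V) : Prop :=
  ∀ S : Set V, S.Nonempty → ∃ A B : Set V, A ∪ B = S ∧ Disjoint A B ∧
    IsPerfect (G.induce A) ∧ (G.induce B).cliqueNum < (G.induce S).cliqueNum

/-- A hereditary class of finite graphs: if `G` is a member and `H` is isomorphic to an induced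
subgraph of `G`, then `H` is a member. -/
structure HereditaryClass where
  /-- `mem V G`: the graph `G` on the finite vertex set `V` is a member of the class -/
  mem : ∀ (V : Type) [Finite V], SimpleGraph V → Prop
  /-- closed under isomorphism and under taking induced subgraphs -/
  closed : ∀ (V W : Type) [Finite V] [Finite W] (H : SimpleGraph V) (G : SimpleGraph W),
    Nonempty (H ↪g G) → mem W G → mem V H

/-- A class `C` is perfect-Pollyanna if `C ∩ D` is perfectly divisible for every hereditary class
`D` in which every triangle-free graph is 3-colourable. -/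
def PerfectPollyanna (C : HereditaryClass) : Prop :=
  ∀ D : HereditaryClass,
    (∀ (V : Type) [Finite V] (G : SimpleGraph V), D.mem V G → G.CliqueFree 3 → G.Colorable 3) →
    ∀ (V : Type) [Finite V] (G : SimpleGraph V), C.mem V G → D.mem V G → PerfectlyDivisible G

/-- The class of bull-free graphs: no induced subgraph is isomorphic to the bull. -/
def bullFree : HereditaryClass where
  mem := fun _ _ G => IsEmpty (bull ↪g G)
  closed := fun _ _ _ _ _ _ ⟨e⟩ h => ⟨fun f => h.false (f.trans e)⟩

/-- The class of bull-free graphs is perfect-Pollyanna. -/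
theorem result : PerfectPollyanna bullFree := by
  classical
  intro D hD V _ G hG hGD S hS
  haveI : Nonempty S := hS.to_subtype
  haveI : Finite S := Subtype.finite
  haveI : Fintype S := Fintype.ofFinite S
  have e0 : G.induce S ↪g G :=
    SimpleGraph.Embedding.comap (Function.Embedding.subtype (· ∈ S)) G
  have hb : BullPD.BullFree (G.induce S) := by
    apply BullPD.bullFree_of_no_bull
    rintro ⟨e⟩
    exact hG.false (e.trans e0)
  obtain ⟨A, -, hA, hlt⟩ := BullPD.core_of_step BullPD.main_step S (G.induce S) hb (by
    intro X hX
    -- the graph on `X` lies in `D`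
    let H : SimpleGraph X := (G.induce S).comap (Function.Embedding.subtype (· ∈ X))
    have eH : H ↪g G.induce S := SimpleGraph.Embedding.comap (Function.Embedding.subtype (· ∈ X)) (G.induce S)
    have hH : D.mem X H := D.closed X V H G ⟨eH.trans e0⟩ hGD
    have hfree : H.CliqueFree 3 := by
      intro s hs
      rw [SimpleGraph.is3Clique_iff] at hs
      obtain ⟨a, b, c, hab, hac, hbc, _⟩ := hs
      exact hX a.1 a.2 b.1 b.2 c.1 c.2 hab hbc hac
    obtain ⟨col⟩ := hD X H hH hfree
    refine ⟨fun x => if hx : x ∈ X then col ⟨x, hx⟩ else 0, ?_⟩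
    intro x hx y hy hxy
    simp only [hx, hy, dif_pos]
    exact col.valid (v := ⟨x, hx⟩) (w := ⟨y, hy⟩) hxy) (fun _ => 1) (fun _ => Nat.one_pos) inferInstance
  refine ⟨Subtype.val '' (A : Set S), Subtype.val '' ((Finset.univ \ A : Finset S) : Set S), ?_, ?_,
    ?_, ?_⟩
  · rw [← Set.image_union, ← Finset.coe_union]
    rw [Finset.union_sdiff_of_subset (Finset.subset_univ A)]
    simp
  · rw [Set.disjoint_image_iff Subtype.val_injective, Finset.disjoint_coe]
    exact Finset.disjoint_sdiff
  · have key : ∀ w : (Subtype.val '' (A : Set S) : Set V), ∃ s ∈ A, (s : V) = w.1 := by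
      rintro ⟨w, s, hs, rfl⟩
      exact ⟨s, hs, rfl⟩
    have hval : ∀ w : (Subtype.val '' (A : Set S) : Set V), w.1 ∈ S := by
      rintro ⟨w, s, hs, rfl⟩
      exact s.2
    let ψ : (G.induce (Subtype.val '' (A : Set S) : Set V)) ↪g G.induce S :=
      { toFun := fun w => ⟨w.1, hval w⟩
        inj' := by
          intro a b hab
          exact Subtype.ext (congrArg (fun z : S => z.1) hab)
        map_rel_iff' := by
          intro a b
          exact Iff.rfl }
    refine BullPD.isPerfect_of_perfOn ψ hA.perfOn ?_
    intro w
    obtain ⟨s, hs, hsw⟩ := key w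
    have : ψ w = s := Subtype.ext hsw.symm
    rw [this]; exact hs
  · have hval : ∀ w : (Subtype.val '' ((Finset.univ \ A : Finset S) : Set S) : Set V),
        w.1 ∈ S := by
      rintro ⟨w, s, hs, rfl⟩
      exact s.2
    let ψ : (G.induce (Subtype.val '' ((Finset.univ \ A : Finset S) : Set S) : Set V))
        ↪g G.induce S :=
      { toFun := fun w => ⟨w.1, hval w⟩
        inj' := by
          intro a b hab
          exact Subtype.ext (congrArg (fun z : S => z.1) hab)
        map_rel_iff' := by
          intro a b
          exact Iff.rfl }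
    have h1 : BullPD.omW (G.induce S) (fun _ => 1) (Finset.univ \ A)
        = (G.induce (Subtype.val '' ((Finset.univ \ A : Finset S) : Set S) : Set V)).cliqueNum := by
      apply BullPD.omW_eq_cliqueNum ψ
      intro s
      constructor
      · intro hs
        exact ⟨⟨s.1, s, hs, rfl⟩, rfl⟩
      · rintro ⟨⟨w, s', hs', rfl⟩, rfl⟩
        exact hs'
    have h2 : BullPD.omW (G.induce S) (fun _ => 1) Finset.univ = (G.induce S).cliqueNum := by
      apply BullPD.omW_eq_cliqueNum (SimpleGraph.Embedding.refl)
      intro s
      simp
    rw [← h1, ← h2]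
    exact hlt

end Pool.Agent.Results.MP_e9b9cb_co.BullFreePollyanna
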